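import Pool.Agent.H94.Deg.Theta
import Pool.Agent.H94.Deg.JetsBounded

/-!
# Conormal spaces at the points of a free line through the base point
-/

open MvPolynomial

set_option linter.unusedSectionVars false
set_option linter.unusedVariables false

namespace H26.Deg

open H89.Hart H94.Cubic H94.Deg

variable {ι : Type*} [Fintype ι] [DecidableEq ι]

/-- the annihilator with respect to the dot product. -/
def pp (S : Submodule ℂ (ι → ℂ)) : Submodule ℂ (ι → ℂ) where
  carrier := {v | ∀ φ ∈ S, φ ⬝ᵥ v = 0}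
  add_mem' {u v} hu hv φ hφ := by rw [dotProduct_add, hu φ hφ, hv φ hφ, add_zero]
  zero_mem' φ _ := by simp
  smul_mem' c u hu φ hφ := by rw [dotProduct_smul, hu φ hφ, smul_zero]

theorem mem_pp {S : Submodule ℂ (ι → ℂ)} {v : ι → ℂ} : v ∈ pp S ↔ ∀ φ ∈ S, φ ⬝ᵥ v = 0 := Iff.rfl

theorem finrank_pp (S : Submodule ℂ (ι → ℂ)) :
    Module.finrank ℂ S + Module.finrank ℂ (pp S) = Fintype.card ι := by
  have h := Subspace.finrank_add_finrank_dualCoannihilator_eq
    (S.map (dotProductEquiv ℂ ι).toLinearMap)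
  rw [LinearEquiv.finrank_map_eq, Module.finrank_fintype_fun_eq_card] at h
  have h2 : (S.map (dotProductEquiv ℂ ι).toLinearMap).dualCoannihilator = pp S := by
    ext v
    rw [Submodule.mem_dualCoannihilator, mem_pp]
    constructor
    · intro h φ hφ
      exact h _ ⟨φ, hφ, rfl⟩
    · rintro h _ ⟨φ, hφ, rfl⟩
      exact h φ hφ
  rwa [h2] at h

/-- pairs `(v, w)`: first order deformations of the line moving the base point by `v`. -/
def K1 (I : Ideal (MvPolynomial (Option ι) ℂ)) (z : ι → ℂ) :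
    Submodule ℂ ((ι → ℂ) × (ι → ℂ)) where
  carrier := {p | ∀ G ∈ I, ∀ k, dif (tc (k + 1) G) z ⬝ᵥ p.1 + dif (tc k G) z ⬝ᵥ p.2 = 0}
  add_mem' {p q} hp hq G hG k := by
    have h1 := hp G hG k
    have h2 := hq G hG k
    rw [Prod.fst_add, Prod.snd_add, dotProduct_add, dotProduct_add]
    linear_combination h1 + h2
  zero_mem' G _ k := by simp
  smul_mem' c p hp G hG k := by
    have h1 := hp G hG k
    rw [Prod.smul_fst, Prod.smul_snd, dotProduct_smul, dotProduct_smul, smul_eq_mul, smul_eq_mul]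
    linear_combination c * h1

theorem mem_K1 {I : Ideal (MvPolynomial (Option ι) ℂ)} {z v w : ι → ℂ} :
    (v, w) ∈ K1 I z ↔
      ∀ G ∈ I, ∀ k, dif (tc (k + 1) G) z ⬝ᵥ v + dif (tc k G) z ⬝ᵥ w = 0 := Iff.rfl

/-- restriction of the coordinates. -/
def prS : (Option ι → ℂ) →ₗ[ℂ] (ι → ℂ) := LinearMap.funLeft ℂ ℂ some

theorem prS_pt (s : ℂ) (z : ι → ℂ) : prS (pt s z) = z := by
  funext i
  rfl

variable {I : Ideal (MvPolynomial (Option ι) ℂ)} {r : ℕ}

theorem eq_pt_prS (hI : Smooth I r) {z : ι → ℂ} (hz : z ∈ cone (J I)) (s : ℂ)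
    {φ : Option ι → ℂ} (hφ : φ ∈ N I (pt s z)) : φ = pt 0 (prS φ) := by
  obtain ⟨G, hG, rfl⟩ := mem_N.1 hφ
  have key : ∀ e, dif (homogeneousComponent e G) (pt s z) none = 0 := by
    intro e
    have hGe := homogeneousComponent_isHomogeneous e G
    rw [dif_pt hGe s (mem_cone_J_iff.1 hz _ (hI.homog G hG e)), Finset.sum_apply]
    refine Finset.sum_eq_zero fun k _ => ?_
    simp [pt]
  have h1 : dif G (pt s z) none = 0 := by
    rw [← sum_homogeneousComponent G, dif_sum, Finset.sum_apply]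
    exact Finset.sum_eq_zero fun e _ => key e
  funext o
  cases o with
  | none => rw [h1]; rfl
  | some i => rfl

/-- the conormal space in the coordinates `ι`. -/
noncomputable def NS (I : Ideal (MvPolynomial (Option ι) ℂ)) (x : Option ι → ℂ) :
    Submodule ℂ (ι → ℂ) := (N I x).map prS

theorem finrank_NS (hI : Smooth I r) (h0 : pt 1 0 ∈ cone I) {z : ι → ℂ} (hz : z ∈ cone (J I))
    {s : ℂ} (hx : pt s z ≠ 0) : Module.finrank ℂ (NS I (pt s z)) = r := by
  have hxI : pt s z ∈ cone I := by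
    have := (mem_cone_J hI h0).1 hz s 1
    rwa [one_smul] at this
  rw [← hI.rank _ hxI hx, NS, ← LinearMap.range_domRestrict]
  apply LinearMap.finrank_range_of_inj
  intro φ ψ h
  apply Subtype.ext
  have h' : prS φ.1 = prS ψ.1 := h
  rw [eq_pt_prS hI hz s φ.2, eq_pt_prS hI hz s ψ.2, h']

theorem mem_NS (hI : Smooth I r) {z : ι → ℂ} (hz : z ∈ cone (J I)) {s : ℂ} {b : ι → ℂ} :
    b ∈ NS I (pt s z) ↔ pt 0 b ∈ N I (pt s z) := by
  constructor
  · rintro ⟨φ, hφ, rfl⟩
    rw [← eq_pt_prS hI hz s hφ]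
    exact hφ
  · intro h
    exact ⟨_, h, prS_pt 0 b⟩

/-- first order deformations of the line are tangent at every point of the line. -/
theorem dot_of_K1 (hI : Smooth I r) {z : ι → ℂ} (hz : z ∈ cone (J I)) {s : ℂ} {b v w : ι → ℂ}
    (hb : b ∈ NS I (pt s z)) (hvw : (v, w) ∈ K1 I z) : b ⬝ᵥ (s • v + w) = 0 := by
  obtain ⟨φ, hφ, rfl⟩ := hb
  obtain ⟨G, hG, rfl⟩ := mem_N.1 hφ
  have key : ∀ e, prS (dif (homogeneousComponent e G) (pt s z)) ⬝ᵥ (s • v + w) = 0 := by
    intro e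
    have hGe := homogeneousComponent_isHomogeneous e G
    have h1 := Theta.dot_telescope (hI.homog G hG e) hGe (z := z) hvw s
    rw [← h1]
    congr 1
    rw [dif_pt hGe s (mem_cone_J_iff.1 hz _ (hI.homog G hG e)), map_sum]
    refine Finset.sum_congr rfl fun k _ => ?_
    rw [map_smul, prS_pt]
  rw [← sum_homogeneousComponent G, dif_sum, map_sum, sum_dotProduct]
  exact Finset.sum_eq_zero fun e _ => key e

/-- conormal vectors at the base point. -/
theorem mem_NS_base (hI : Smooth I r) (h0 : pt 1 0 ∈ cone I) (z : ι → ℂ) {b : ι → ℂ} :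
    b ∈ NS I (pt 1 0) ↔ ∃ G ∈ I, b = dif (tc 1 G) z := by
  constructor
  · rintro ⟨φ, hφ, rfl⟩
    obtain ⟨G, hG, rfl⟩ := mem_N.1 hφ
    exact ⟨G, hG, by rw [dif_base hI h0 hG z, prS_pt]⟩
  · rintro ⟨G, hG, rfl⟩
    exact ⟨_, mem_N.2 ⟨G, hG, rfl⟩, by rw [dif_base hI h0 hG z, prS_pt]⟩

theorem zero_mem_cone_J (h0 : pt 1 0 ∈ cone I) : (0 : ι → ℂ) ∈ cone (J I) := by
  rw [mem_cone_J_iff]
  intro F hF k
  rcases Nat.eq_zero_or_pos k with h1 | h1
  · subst h1
    rw [tc_zero_order, eval_C]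
    exact h0 _ hF
  · have h2 : (0 : ι → ℂ) = (0 : ℂ) • (0 : ι → ℂ) := by simp
    rw [h2, eval_smul_tc, zero_pow (by omega), zero_mul]

/-- every tangent vector at a point of a free line through the base point comes from a first
order deformation of the line. -/
theorem exists_K1 (hI : Smooth I r) (h0 : pt 1 0 ∈ cone I) {z : ι → ℂ} (hz : z ∈ cone (J I))
    (hz0 : z ≠ 0) (hst : StarT I z) (s : ℂ) {u : ι → ℂ}
    (hu : u ∈ pp (NS I (pt s z))) : ∃ v w, (v, w) ∈ K1 I z ∧ u = s • v + w := by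
  let A : K1 I z →ₗ[ℂ] (ι → ℂ) := (LinearMap.fst ℂ _ _).comp (K1 I z).subtype
  let B : K1 I z →ₗ[ℂ] (ι → ℂ) :=
    (s • LinearMap.fst ℂ _ _ + LinearMap.snd ℂ _ _).comp (K1 I z).subtype
  have hA := LinearMap.finrank_range_add_finrank_ker A
  have hB := LinearMap.finrank_range_add_finrank_ker B
  have hrA : pp (NS I (pt 1 0)) ≤ LinearMap.range A := by
    intro v hv
    obtain ⟨w, hw⟩ := hst v fun G hG => hv _ ((mem_NS_base hI h0 z).2 ⟨G, hG, rfl⟩)
    exact ⟨⟨(v, w), hw⟩, rfl⟩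
  have hrB : LinearMap.range B ≤ pp (NS I (pt s z)) := by
    rintro _ ⟨⟨⟨v, w⟩, hvw⟩, rfl⟩ φ hφ
    exact dot_of_K1 hI hz hφ hvw
  have hker : Module.finrank ℂ (LinearMap.ker B) ≤ Module.finrank ℂ (LinearMap.ker A) := by
    have hmem : ∀ p : LinearMap.ker B, ((0, p.1.1.1) : (ι → ℂ) × (ι → ℂ)) ∈ K1 I z := by
      rintro ⟨⟨⟨v, w⟩, hvw⟩, hp⟩
      have h1 : s • v + w = 0 := LinearMap.mem_ker.1 hp
      have h2 : w = -(s • v) := by rw [eq_neg_iff_add_eq_zero, add_comm]; exact h1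
      subst h2
      have h3 : ∀ G ∈ I, ∀ k, dif (tc k G) z ⬝ᵥ v = 0 := by
        intro G hG k
        induction k with
        | zero => rw [dif_tc_zero, zero_dotProduct]
        | succ k ih =>
          have := hvw G hG k
          simp only [dotProduct_neg, dotProduct_smul, ih, smul_zero, neg_zero, add_zero] at this
          exact this
      intro G hG k
      simp only [dotProduct_zero, zero_add]
      exact h3 G hG k
    let f : LinearMap.ker B →ₗ[ℂ] LinearMap.ker A :=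
      { toFun := fun p => ⟨⟨(0, p.1.1.1), hmem p⟩, by rw [LinearMap.mem_ker]; rfl⟩
        map_add' := fun p q => by
          apply Subtype.ext
          apply Subtype.ext
          simp
        map_smul' := fun c p => by
          apply Subtype.ext
          apply Subtype.ext
          simp }
    apply LinearMap.finrank_le_finrank_of_injective (f := f)
    rintro ⟨⟨⟨v, w⟩, hvw⟩, hp⟩ ⟨⟨⟨v', w'⟩, hvw'⟩, hp'⟩ h
    have h1 : v = v' := by
      have := congrArg (fun q => q.1.1.2) h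
      exact this
    have h2 : s • v + w = 0 := LinearMap.mem_ker.1 hp
    have h3 : s • v' + w' = 0 := LinearMap.mem_ker.1 hp'
    subst h1
    have h4 : w = w' := by
      have := h2.trans h3.symm
      exact add_left_cancel this
    subst h4
    rfl
  have hd1 := finrank_pp (NS I (pt 1 0))
  have hd2 := finrank_pp (NS I (pt s z))
  rw [finrank_NS hI h0 (zero_mem_cone_J h0) (pt_ne_zero_left one_ne_zero 0)] at hd1
  rw [finrank_NS hI h0 hz (pt_ne_zero_right hz0 s)] at hd2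
  have h1 := Submodule.finrank_mono hrA
  have h2 : LinearMap.range B = pp (NS I (pt s z)) :=
    Submodule.eq_of_le_of_finrank_le hrB (by omega)
  rw [← h2] at hu
  obtain ⟨⟨⟨v, w⟩, hvw⟩, rfl⟩ := hu
  exact ⟨v, w, hvw, rfl⟩

/-- a vector killing all `s v + w` is conormal at `(s, z)`. -/
theorem mem_NS_of_K1 (hI : Smooth I r) (h0 : pt 1 0 ∈ cone I) {z : ι → ℂ} (hz : z ∈ cone (J I))
    (hz0 : z ≠ 0) (hst : StarT I z) (s : ℂ) {b : ι → ℂ}
    (hb : ∀ v w, (v, w) ∈ K1 I z → b ⬝ᵥ (s • v + w) = 0) : b ∈ NS I (pt s z) := by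
  apply JetsB.mem_of_perp
  intro u hu
  obtain ⟨v, w, hvw, rfl⟩ := exists_K1 hI h0 hz hz0 hst s hu
  exact hb v w hvw

end H26.Deg
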