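import Pool.Agent.H26.Deg.Zak2

/-!
# Number of levels of the Taylor coefficients for nondegenerate varieties
-/

open MvPolynomial

set_option linter.unusedSectionVars false
set_option linter.unusedVariables false

namespace H26.Deg

open H89.Hart H94.Cubic H94.Deg

variable {ι : Type*} [Fintype ι] [DecidableEq ι]

theorem jets_bounded_gen {I : Ideal (MvPolynomial (Option ι) ℂ)} {r : ℕ} (hI : Smooth I r)
    (h0 : pt 1 0 ∈ cone I) (F : Fin r → MvPolynomial (Option ι) ℂ) (hF : ∀ i, F i ∈ I)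
    (hli : LinearIndependent ℂ (fun i => dif (F i) (pt 1 0))) {z : ι → ℂ} (hz : z ∈ cone (J I))
    (hst : StarT I z) (j m : ℕ) (hm : m ≤ Module.finrank ℂ (JetsB.Sk F z j)) :
    N (J I) z ≤ JetsB.Sk F z (Module.finrank ℂ (N (J I) z) - m + j) := by
  have hfd : FiniteDimensional ℂ (N (J I) z) := inferInstance
  set c := Module.finrank ℂ (N (J I) z) with hc
  have key : ∀ k, N (J I) z ≤ JetsB.Sk F z (k + j) ∨
      m + k ≤ Module.finrank ℂ (JetsB.Sk F z (k + j)) := by
    intro k
    induction k with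
    | zero => right; rw [Nat.zero_add]; exact hm
    | succ k ih =>
      by_cases hN : N (J I) z ≤ JetsB.Sk F z (k + j)
      · left; exact hN.trans (JetsB.Sk_mono F z (by omega))
      · right
        have h1 := ih.resolve_left hN
        have h2 : JetsB.Sk F z (k + j) < JetsB.Sk F z (k + 1 + j) := by
          refine lt_of_le_not_ge (JetsB.Sk_mono F z (by omega)) fun hle => hN ?_
          refine JetsB.N_le hI h0 F hF hli hz _ (JetsB.stable hI h0 F hF hli hz hst (k + j) ?_)
          have : k + j + 1 = k + 1 + j := by omega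
          rw [this]
          exact hle
        have h3 := Submodule.finrank_lt_finrank_of_lt h2
        omega
  rcases key (c - m) with h | h
  · exact h
  · have h1 : JetsB.Sk F z (c - m + j) ≤ N (J I) z := JetsB.Sk_le hF z _
    have h2 : Module.finrank ℂ (JetsB.Sk F z (c - m + j)) ≤ c := Submodule.finrank_mono h1
    have h3 : m ≤ c := hm.trans (Submodule.finrank_mono (JetsB.Sk_le hF z j))
    have h4 : Module.finrank ℂ (JetsB.Sk F z (c - m + j)) = c := by omega
    exact (Submodule.eq_of_le_of_finrank_eq h1 h4).ge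

/-- For nondegenerate varieties the Taylor coefficients of order at most `c - 2 r + 2` suffice. -/
theorem jets_two {I : Ideal (MvPolynomial (Option ι) ℂ)} {r : ℕ} (hI : Smooth I r)
    (h0 : pt 1 0 ∈ cone I) (F : Fin r → MvPolynomial (Option ι) ℂ)
    (hF : ∀ i, F i ∈ I) (hli : LinearIndependent ℂ (fun i => dif (F i) (pt 1 0)))
    {P : Ideal (MvPolynomial ι ℂ)} {c : ℕ} (hP : Smooth P c) (hJP : J I ≤ P)
    (hst : ∀ z ∈ cone P, z ≠ 0 → StarT I z)
    (hN : ∀ z ∈ cone P, z ≠ 0 → N P z = N (J I) z)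
    (hdm : dm P + c = Fintype.card ι) (hn : 2 * c + r ≤ Fintype.card ι)
    (hnd : ∀ b : Option ι → ℂ, (∀ y ∈ cone I, b ⬝ᵥ y = 0) → b = 0)
    {z : ι → ℂ} (hz : z ∈ cone P) (hz0 : z ≠ 0) :
    2 * r ≤ c ∧ N P z ≤ Submodule.span ℂ
      {v | ∃ (i : Fin r) (k : ℕ), k < c - 2 * r + 2 ∧ v = dif (tc (k + 1) (F i)) z} := by
  have hzJ : z ∈ cone (J I) := cone_anti hJP hz
  have hli2 : LinearIndependent ℂ (Sum.elim (fun i => dif (tc 1 (F i)) z)
      (fun i => dif (tc 2 (F i)) z)) := by
    rw [Fintype.linearIndependent_iff]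
    intro g hg
    rw [Fintype.sum_sum_type] at hg
    obtain ⟨h1, h2⟩ := li_two hI h0 F hF hli hP hJP hst hdm hn hnd hz hz0
      (fun i => g (Sum.inl i)) (fun i => g (Sum.inr i)) hg
    rintro (i | i)
    · exact congrFun h1 i
    · exact congrFun h2 i
  have hc : Module.finrank ℂ (N (J I) z) = c := by
    rw [← hN z hz hz0, hP.rank z hz hz0]
  have h2r : 2 * r ≤ Module.finrank ℂ (JetsB.Sk F z 2) := by
    have h2 := finrank_span_eq_card hli2
    rw [Fintype.card_sum, Fintype.card_fin] at h2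
    have h3 : 2 * r = r + r := by ring
    rw [h3, ← h2]
    refine Submodule.finrank_mono ?_
    rw [Submodule.span_le]
    rintro v ⟨i | i, rfl⟩
    · exact Submodule.subset_span ⟨i, 0, by omega, rfl⟩
    · exact Submodule.subset_span ⟨i, 1, by omega, rfl⟩
  have h2c : 2 * r ≤ c := by
    rw [← hc]
    exact h2r.trans (Submodule.finrank_mono (JetsB.Sk_le hF z 2))
  refine ⟨h2c, ?_⟩
  have h3 := jets_bounded_gen hI h0 F hF hli hzJ (hst z hz hz0) 2 (2 * r) h2r
  rw [hc] at h3
  rw [hN z hz hz0]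
  exact h3

end H26.Deg
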