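import Pool.Agent.H94.Deg.LinesP
import Pool.Agent.H94.Deg.Macaulay

/-!
# A large family of lines through a very general point is smooth

Variant of `exists_P` of helper94: instead of forms of bounded degree we are given a large
irreducible family of lines through the base point.
-/

open MvPolynomial

namespace H26.Deg

open H89.Hart H94.Cubic H94.Deg

section Local

variable {σ : Type*} [Fintype σ] [DecidableEq σ]

theorem hform_of_homog {J : Ideal (MvPolynomial σ ℂ)}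
    (hJh : ∀ f ∈ J, ∀ d, homogeneousComponent d f ∈ J) (z : σ → ℂ) : N J z =
      Submodule.span ℂ {v | ∃ q ∈ J, (∃ d, q.IsHomogeneous d) ∧ dif q z = v} := by
  apply le_antisymm
  · intro v hv
    obtain ⟨f, hf, rfl⟩ := mem_N.1 hv
    have h1 : dif f z = ∑ d ∈ Finset.range (f.totalDegree + 1),
        dif (homogeneousComponent d f) z := by
      rw [← dif_sum, sum_homogeneousComponent]
    rw [h1]
    refine Submodule.sum_mem _ fun d _ => Submodule.subset_span ?_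
    exact ⟨_, hJh f hf d, ⟨d, homogeneousComponent_isHomogeneous d f⟩, rfl⟩
  · rw [Submodule.span_le]
    rintro v ⟨f, hf, -, rfl⟩
    exact mem_N.2 ⟨f, hf, rfl⟩

/-- If `V(J)` has no obstructions outside the origin then the branch of `V(J)` containing a given
subvariety is smooth. -/
theorem exists_smooth_of_le {J : Ideal (MvPolynomial σ ℂ)}
    (hJh : ∀ f ∈ J, ∀ d, homogeneousComponent d f ∈ J)
    (hobs : ∀ z ∈ cone J, z ≠ 0 → ∀ E : MvPolynomial σ ℂ →ₗ[ℂ] ℂ,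
      (∀ q ∈ J, ∀ h, E (h * q) = eval z h * E q) → ∃ w : σ → ℂ, ∀ q ∈ J, E q = dif q z ⬝ᵥ w)
    {P₀ : Ideal (MvPolynomial σ ℂ)} (hP₀ : P₀.IsPrime) (hJP₀ : J ≤ P₀)
    (hne : ∃ z ∈ cone P₀, z ≠ 0) :
    ∃ (P : Ideal (MvPolynomial σ ℂ)) (c : ℕ), Smooth P c ∧ J ≤ P ∧ P ≤ P₀ ∧
      (∀ z ∈ cone P, z ≠ 0 → N P z = N J z) ∧ dm P + c = Fintype.card σ := by
  have hbr := fun z (hz : z ∈ cone J) (hz0 : z ≠ 0) =>
    exists_branch hz (hobs z hz hz0) (hform_of_homog hJh z)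
  choose c g Q hc hgJ hgh hQ hJQ hzQ hdim hN hmin using hbr
  -- a point of a branch determines the branch
  have hpt : ∀ z hz hz0 y hy hy0, y ∈ cone (Q z hz hz0) → Q z hz hz0 = Q y hy hy0 := by
    intro z hz hz0 y hy hy0 hyz
    have h1 : Q y hy hy0 ≤ Q z hz hz0 :=
      hmin y hy hy0 _ (hQ z hz hz0).prime (fun i => hJQ z hz hz0 (hgJ y hy hy0 i)) hyz
    exact le_antisymm (hmin z hz hz0 _ (hQ y hy hy0).prime
      (fun i => hJQ y hy hy0 (hgJ z hz hz0 i)) (cone_anti h1 (hzQ z hz hz0))) h1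
  obtain ⟨p, hpP, hp0⟩ := hne
  have hp : p ∈ cone J := cone_anti hJP₀ hpP
  have hNP : ∀ z ∈ cone (Q p hp hp0), z ≠ 0 → N (Q p hp hp0) z = N J z := by
    intro z hz hz0
    have hzJ : z ∈ cone J := cone_anti (hJQ p hp hp0) hz
    rw [hpt p hp hp0 z hzJ hz0 hz]
    exact hN z hzJ hz0
  refine ⟨Q p hp hp0, c p hp hp0, ⟨(hQ p hp hp0).prime, (hQ p hp hp0).homog, ?_⟩, hJQ p hp hp0,
    hmin p hp hp0 P₀ hP₀ (fun i => hJP₀ (hgJ p hp hp0 i)) hpP, hNP, hdim p hp hp0⟩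
  intro z hz hz0
  have hzJ : z ∈ cone J := cone_anti (hJQ p hp hp0) hz
  rw [hNP z hz hz0, ← hc z hzJ hz0]
  have h1 := hdim z hzJ hz0
  have h2 := hdim p hp hp0
  rw [← hpt p hp hp0 z hzJ hz0 hz] at h1
  omega

end Local

variable {ι : Type*} [Fintype ι] [DecidableEq ι]

/-- The family of lines through the base point containing a given large family. -/
theorem exists_P_of_lines {I : Ideal (MvPolynomial (Option ι) ℂ)} {r : ℕ} (hI : Smooth I r)
    (h0 : pt 1 0 ∈ cone I) (hst : ∀ z ∈ cone (J I), z ≠ 0 → StarT I z)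
    {P₀ : Ideal (MvPolynomial ι ℂ)} (hP₀ : P₀.IsPrime) (hJP₀ : J I ≤ P₀) {c₀ : ℕ}
    (hdim : Fintype.card ι ≤ dm P₀ + c₀) (hc₀ : c₀ < Fintype.card ι) :
    ∃ (P : Ideal (MvPolynomial ι ℂ)) (c : ℕ), Smooth P c ∧ J I ≤ P ∧
      (∀ z ∈ cone P, z ≠ 0 → N P z = N (J I) z) ∧ c ≤ c₀ ∧
      dm P + c = Fintype.card ι ∧ ∃ z ∈ cone P, z ≠ 0 := by
  obtain ⟨P₁, hP₁, hJP₁, hP₁₀⟩ := exists_HP_le (J_homog I) hP₀ hJP₀
  have h1 := dm_anti hP₁.prime hP₀ hP₁₀
  obtain ⟨z, hz, hz0, -⟩ := ne_zero_of_dm hP₁ (fun x : Fin 0 => (0 : MvPolynomial ι ℂ))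
    (fun b => b.elim0) (by rw [Fintype.card_fin]; omega)
  obtain ⟨P, c, h2, h3, h4, h5, h6⟩ := exists_smooth_of_le (J_homog I)
    (fun z hz hz0 E hE => obs hI h0 hz hz0 (hst z hz hz0) E hE) hP₁.prime hJP₁ ⟨z, hz, hz0⟩
  have h7 := dm_anti h2.prime hP₁.prime h4
  exact ⟨P, c, h2, h3, h5, by omega, h6, z, cone_anti h4 hz, hz0⟩

end H26.Deg
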