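import Pool.Agent.H26.Deg.LinesQ
import Pool.Agent.H94.Deg.JetsBounded
import Pool.Agent.H94.Deg.Stair
import Pool.Agent.H94.Deg.Core

/-!
# Varieties swept out by a large family of lines, adapted coordinates
-/

open MvPolynomial

set_option linter.unusedSectionVars false
set_option linter.unusedVariables false

namespace H26.Deg

open H89.Hart H94.Cubic H94.Deg

variable {ι : Type*} [Fintype ι] [DecidableEq ι]

/-- a line through the base point given by an arbitrary point of it. -/
theorem mem_cone_J_of_line {I : Ideal (MvPolynomial (Option ι) ℂ)} {r : ℕ} (hI : Smooth I r)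
    (h0 : pt 1 0 ∈ cone I) {w : Option ι → ℂ} (hw : ∀ t : ℂ, pt 1 0 + t • w ∈ cone I) :
    (fun i => w (some i)) ∈ cone (J I) := by
  rw [mem_cone_J hI h0]
  intro s b
  -- generic case
  have hgen : ∀ s : ℂ, s ≠ b * w none → pt s (b • fun i => w (some i)) ∈ cone I := by
    intro s hs
    have hμ : s - b * w none ≠ 0 := sub_ne_zero.2 hs
    have h1 := smul_mem_of_homog hI.homog (hw (b / (s - b * w none))) (s - b * w none)
    have h2 : (s - b * w none) • (pt 1 0 + (b / (s - b * w none)) • w) =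
        pt s (b • fun i => w (some i)) := by
      funext o
      cases o with
      | none =>
        simp only [Pi.smul_apply, Pi.add_apply, smul_eq_mul, pt_none]
        field_simp
        ring
      | some i =>
        simp only [Pi.smul_apply, Pi.add_apply, smul_eq_mul, pt_some, Pi.zero_apply, zero_add]
        field_simp
    rwa [h2] at h1
  have hcont : Continuous fun s : ℂ => (pt s (b • fun i => w (some i)) : Option ι → ℂ) := by
    refine continuous_pi fun o => ?_
    cases o with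
    | none => exact continuous_id
    | some i => exact continuous_const
  have hcl : IsClosed {s : ℂ | pt s (b • fun i => w (some i)) ∈ cone I} :=
    (isClosed_cone I).preimage hcont
  have hd : Dense ({b * w none}ᶜ : Set ℂ) := dense_compl_singleton _
  have hsub : ({b * w none}ᶜ : Set ℂ) ⊆ {s : ℂ | pt s (b • fun i => w (some i)) ∈ cone I} :=
    fun s hs => hgen s hs
  exact (closure_minimal hsub hcl) (hd.closure_eq ▸ Set.mem_univ s)

/-- the dimension of the cylinder. -/
theorem dm_cyl {P : Ideal (MvPolynomial ι ℂ)} (hP : HP P) : dm (cyl P) = dm P + 1 := by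
  have h1 := dm_ext (κ := Unit) hP
  rw [Fintype.card_unit] at h1
  rw [← h1]
  have hc : (cyl P).IsPrime := cyl_isPrime hP.prime
  have he : (ext P Unit).IsPrime := (ext_HP (κ := Unit) hP).prime
  let e : MvPolynomial (Option ι) ℂ ≃ₐ[ℂ] MvPolynomial (ι ⊕ Unit) ℂ :=
    renameEquiv ℂ (Equiv.optionEquivSumPUnit ι)
  have hmap : ext P Unit = (cyl P).map (e : MvPolynomial (Option ι) ℂ →+* MvPolynomial (ι ⊕ Unit) ℂ) := by
    have hev : ∀ (z : ι ⊕ Unit → ℂ) (F : MvPolynomial (Option ι) ℂ),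
        eval z (e F) = eval (z ∘ Equiv.optionEquivSumPUnit ι) F := by
      intro z F
      change eval z (rename (Equiv.optionEquivSumPUnit ι) F) = _
      rw [eval_rename]
    apply le_antisymm
    · intro g hg
      have h3 : e.symm g ∈ cyl P := by
        apply mem_of_cone hc
        intro x hx
        have h4 := hev (x ∘ (Equiv.optionEquivSumPUnit ι).symm) (e.symm g)
        rw [e.apply_symm_apply] at h4
        have h5 : (x ∘ (Equiv.optionEquivSumPUnit ι).symm) ∘ Equiv.optionEquivSumPUnit ι = x := by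
          funext o
          simp
        rw [h5] at h4
        rw [← h4]
        have h6 : (x ∘ (Equiv.optionEquivSumPUnit ι).symm) ∈ cone (ext P Unit) := by
          rw [mem_cone_ext]
          exact mem_cone_cyl.1 hx
        exact h6 _ hg
      have h4 := Ideal.mem_map_of_mem (e : MvPolynomial (Option ι) ℂ →+* MvPolynomial (ι ⊕ Unit) ℂ) h3
      have h5 : (e : MvPolynomial (Option ι) ℂ →+* MvPolynomial (ι ⊕ Unit) ℂ) (e.symm g) = g :=
        e.apply_symm_apply g
      rwa [h5] at h4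
    · rw [Ideal.map_le_iff_le_comap]
      intro F hF
      rw [Ideal.mem_comap]
      apply mem_of_cone he
      intro z hz
      have h4 := hev z F
      have h5 : (z ∘ Equiv.optionEquivSumPUnit ι) ∈ cone (cyl P) := by
        rw [mem_cone_cyl]
        exact (mem_cone_ext.1 hz)
      exact h4.trans (h5 _ hF)
  have h2 := ringKrullDim_eq_of_ringEquiv (Ideal.quotientEquiv (cyl P) (ext P Unit) e.toRingEquiv hmap)
  rw [dm_eq hc, dm_eq he] at h2
  exact_mod_cast h2

/-- From a family of points of lines through the base point to a family of directions. -/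
theorem exists_directions {I : Ideal (MvPolynomial (Option ι) ℂ)} {r : ℕ} (hI : Smooth I r)
    (h0 : pt 1 0 ∈ cone I) {Q : Ideal (MvPolynomial (Option ι) ℂ)} (hQ : Q.IsPrime)
    (hlines : ∀ w ∈ cone Q, ∀ t : ℂ, pt 1 0 + t • w ∈ cone I) :
    ∃ P₀ : Ideal (MvPolynomial ι ℂ), P₀.IsPrime ∧ J I ≤ P₀ ∧ dm Q ≤ dm P₀ + 1 := by
  have hle : cyl (J I) ≤ Q := by
    intro F hF
    apply mem_of_cone hQ
    intro w hw
    exact (mem_cone_cyl.2 (mem_cone_J_of_line hI h0 (hlines w hw))) F hF
  let P' : Ideal (MvPolynomial ι ℂ) :=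
    Q.comap (rename some : MvPolynomial ι ℂ →ₐ[ℂ] MvPolynomial (Option ι) ℂ)
  have hP' : P'.IsPrime := Ideal.comap_isPrime _ _
  have hJP' : J I ≤ P' := Ideal.map_le_iff_le_comap.1 hle
  obtain ⟨P₁, hP₁, hJP₁, hP₁'⟩ := exists_HP_le (J_homog I) hP' hJP'
  refine ⟨P₁, hP₁.prime, hJP₁, ?_⟩
  have h1 : cyl P₁ ≤ Q := Ideal.map_le_iff_le_comap.2 hP₁'
  have h2 := dm_anti (cyl_isPrime hP₁.prime) hQ h1
  rw [dm_cyl hP₁] at h2
  exact h2

/-- The main theorem in adapted coordinates, `K` is a bound for the number of levels. -/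
theorem swept_core {I : Ideal (MvPolynomial (Option ι) ℂ)} {r : ℕ} (hI : Smooth I r)
    (h0 : pt 1 0 ∈ cone I) (F : Fin r → MvPolynomial (Option ι) ℂ)
    (hF : ∀ i, F i ∈ I) (hli : LinearIndependent ℂ (fun i => dif (F i) (pt 1 0)))
    (hst : ∀ z ∈ cone (J I), z ≠ 0 → StarT I z) (hr : 1 ≤ r)
    {P : Ideal (MvPolynomial ι ℂ)} {c : ℕ} (hP : Smooth P c) (hJP : J I ≤ P)
    (hN : ∀ z ∈ cone P, z ≠ 0 → N P z = N (J I) z)
    (hdm : dm P + c = Fintype.card ι) (hne : ∃ z ∈ cone P, z ≠ 0) (K : ℕ)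
    (hK : ∀ z ∈ cone P, z ≠ 0 → N P z ≤ Submodule.span ℂ
      {v | ∃ (i : Fin r) (k : ℕ), k < K ∧ v = dif (tc (k + 1) (F i)) z})
    (hn : 2 * c + r * K < Fintype.card ι) :
    ∃ (G : Fin r → MvPolynomial (Option ι) ℂ) (e : Fin r → ℕ), (∀ i, 1 ≤ e i) ∧
      ∑ i, e i = c ∧ (∀ i, (G i).IsHomogeneous (e i)) ∧ I = Ideal.span (Set.range G) ∧
      ∀ x ∈ cone I, x ≠ 0 → LinearIndependent ℂ (fun i => dif (G i) x) := by
  have hst' : ∀ z ∈ cone P, z ≠ 0 → StarT I z := fun z hz hz0 => hst z (cone_anti hJP hz) hz0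
  obtain ⟨a, ha, hbas⟩ := staircase' hI h0 F K hF hli hP hJP hst' hK hdm hn hne
  have hsum : ∑ i, (a i + 1) = c := by
    obtain ⟨z₁, hz₁, hz₁0⟩ := hne
    have h1 := finrank_span_eq_card (hbas z₁ hz₁ hz₁0).1
    rw [(hbas z₁ hz₁ hz₁0).2, hP.rank z₁ hz₁ hz₁0, Fintype.card_sigma] at h1
    simpa using h1.symm
  have hrc : r ≤ c := by
    rw [← hsum]
    calc r = ∑ i : Fin r, 1 := by simp
      _ ≤ ∑ i, (a i + 1) := Finset.sum_le_sum fun i _ => by omega
  have hcK : c ≤ r * K := by
    rw [← hsum]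
    calc ∑ i, (a i + 1) ≤ ∑ i : Fin r, K := Finset.sum_le_sum fun i _ => ha i
      _ = r * K := by simp
  obtain ⟨G, hGh, hG, hGli⟩ := main_core hI h0 F hF hli hP hJP hst' a hbas hne hr (by omega)
    (by omega)
  exact ⟨G, fun i => a i + 1, fun i => Nat.le_add_left _ _, hsum, hGh, hG, hGli⟩

end H26.Deg
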