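import Pool.Agent.H26.Deg.SweptMain
import Pool.Agent.H94.Deg.PointA3

/-!
# Varieties swept out by a large family of lines: the main theorem
-/

open MvPolynomial

set_option linter.unusedSectionVars false
set_option linter.unusedVariables false

namespace H26.Deg

open H89.Hart H94.Cubic H94.Deg H18.Sparse

/-- Nonsingular varieties swept out by a large family of lines are complete intersections. -/
theorem swept_main {σ : Type*} [Fintype σ] [DecidableEq σ] {I : Ideal (MvPolynomial σ ℂ)} {r : ℕ}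
    (hI : Smooth I r) (hr : 1 ≤ r)
    (hnd : ∀ b : σ → ℂ, (∀ x ∈ cone I, b ⬝ᵥ x = 0) → b = 0)
    {u : MvPolynomial σ ℂ} (hu : u ∉ I) {c : ℕ}
    (hlines : ∀ y ∈ cone I, y ≠ 0 → eval y u ≠ 0 → ∃ Q : Ideal (MvPolynomial σ ℂ), Q.IsPrime ∧
      (∀ w ∈ cone Q, ∀ t : ℂ, y + t • w ∈ cone I) ∧ Fintype.card σ ≤ dm Q + c)
    (h2r : 2 * r ≤ c) (hn : 2 * c + r * (c - 2 * r + 2) + 1 < Fintype.card σ) :
    ∃ (G : Fin r → MvPolynomial σ ℂ) (e : Fin r → ℕ), (∀ i, 1 ≤ e i) ∧
      ∑ i, e i ≤ c ∧ (∀ i, (G i).IsHomogeneous (e i)) ∧ I = Ideal.span (Set.range G) ∧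
      ∀ x ∈ cone I, x ≠ 0 → LinearIndependent ℂ (fun i => dif (G i) x) := by
  classical
  -- a nonzero point of the open set
  obtain ⟨p, hp, hp0, hpu⟩ : ∃ p ∈ cone I, p ≠ 0 ∧ eval p u ≠ 0 := by
    by_contra hcon
    push Not at hcon
    have h1 : ∀ i, (X i : MvPolynomial σ ℂ) * u ∈ I := by
      intro i
      apply mem_of_cone hI.prime
      intro x hx
      rw [map_mul, eval_X]
      by_cases hx0 : x = 0
      · rw [hx0, Pi.zero_apply, zero_mul]
      · rw [hcon x hx hx0, mul_zero]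
    have h2 : ∀ i, (X i : MvPolynomial σ ℂ) ∈ I := fun i =>
      (hI.prime.mem_or_mem (h1 i)).resolve_right hu
    have hcard : 0 < Fintype.card σ := by omega
    obtain ⟨i⟩ := Fintype.card_pos_iff.1 hcard
    have h3 := hnd (Pi.single i 1) (by
      intro x hx
      rw [single_dotProduct, one_mul]
      have := hx _ (h2 i)
      rwa [eval_X] at this)
    have h4 := congrFun h3 i
    rw [Pi.single_eq_same, Pi.zero_apply] at h4
    exact one_ne_zero h4
  obtain ⟨F, -, hF, -, hFli, -⟩ := exists_frame hI hp hp0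
  have hdif : ∀ x ∈ cone I, ∀ i, dif (u * F i) x = eval x u • dif (F i) x := by
    intro x hx i
    rw [dif_mul, hx _ (hF i), zero_smul, add_zero]
  obtain ⟨y, hy, hy0, hyli, hyst⟩ := exists_very_general hI (fun i => u * F i)
    (fun i => Ideal.mul_mem_left _ _ (hF i)) hp hp0 (by
      simp only [hdif p hp]
      exact hFli.units_smul (fun _ => Units.mk0 _ hpu))
  simp only [hdif y hy] at hyli
  have hyu : eval y u ≠ 0 := by
    intro h
    have h1 := hyli.ne_zero ⟨0, hr⟩
    rw [h, zero_smul] at h1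
    exact h1 rfl
  have hyli' : LinearIndependent ℂ (fun i => dif (F i) y) := by
    have h1 := hyli.units_smul (fun _ => (Units.mk0 _ hyu)⁻¹)
    convert h1 using 2 with i
    simp [Units.smul_def, smul_smul, hyu]
  obtain ⟨Q, hQ, hQl, hQd⟩ := hlines y hy hy0 hyu
  exact swept_point hI F hF hy hy0 hyli' hyst hr hnd hQ hQl hQd h2r hn

end H26.Deg
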