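import Pool.Agent.H26.Deg.Jets2
import Pool.Agent.H15.Hart.Pull

/-!
# Varieties swept out by a large family of lines
-/

open MvPolynomial

set_option linter.unusedSectionVars false
set_option linter.unusedVariables false

namespace H26.Deg

open H89.Hart H94.Cubic H94.Deg H18.Sparse

/-- The theorem in adapted coordinates. -/
theorem swept_adapted {ι : Type*} [Fintype ι] [DecidableEq ι]
    {I : Ideal (MvPolynomial (Option ι) ℂ)} {r : ℕ} (hI : Smooth I r)
    (h0 : pt 1 0 ∈ cone I) (F : Fin r → MvPolynomial (Option ι) ℂ)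
    (hF : ∀ i, F i ∈ I) (hli : LinearIndependent ℂ (fun i => dif (F i) (pt 1 0)))
    (hst : ∀ z ∈ cone (J I), z ≠ 0 → StarT I z) (hr : 1 ≤ r)
    (hnd : ∀ b : Option ι → ℂ, (∀ y ∈ cone I, b ⬝ᵥ y = 0) → b = 0)
    {Q : Ideal (MvPolynomial (Option ι) ℂ)} (hQ : Q.IsPrime)
    (hlines : ∀ w ∈ cone Q, ∀ t : ℂ, pt 1 0 + t • w ∈ cone I) {c : ℕ}
    (hdim : Fintype.card ι + 1 ≤ dm Q + c) (h2r : 2 * r ≤ c)
    (hn : 2 * c + r * (c - 2 * r + 2) < Fintype.card ι) :
    ∃ (G : Fin r → MvPolynomial (Option ι) ℂ) (e : Fin r → ℕ), (∀ i, 1 ≤ e i) ∧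
      ∑ i, e i ≤ c ∧ (∀ i, (G i).IsHomogeneous (e i)) ∧ I = Ideal.span (Set.range G) ∧
      ∀ x ∈ cone I, x ≠ 0 → LinearIndependent ℂ (fun i => dif (G i) x) := by
  obtain ⟨P₀, hP₀, hJP₀, hdP₀⟩ := exists_directions hI h0 hQ hlines
  obtain ⟨P, c', hP, hJP, hN, hc', hdm, hne⟩ := exists_P_of_lines hI h0 hst hP₀ hJP₀ (c₀ := c)
    (by omega) (by omega)
  have hst' : ∀ z ∈ cone P, z ≠ 0 → StarT I z := fun z hz hz0 => hst z (cone_anti hJP hz) hz0
  have h3c : 2 * c' + r ≤ Fintype.card ι := by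
    have h4 : r * 1 ≤ r * (c - 2 * r + 2) := Nat.mul_le_mul_left r (by omega)
    omega
  have h2r' : 2 * r ≤ c' := by
    obtain ⟨z, hz, hz0⟩ := hne
    exact (jets_two hI h0 F hF hli hP hJP hst' hN hdm h3c hnd hz hz0).1
  have hle : r * (c' - 2 * r + 2) ≤ r * (c - 2 * r + 2) := Nat.mul_le_mul_left r (by omega)
  obtain ⟨G, e, he, hsum, hGh, hG, hGli⟩ := swept_core hI h0 F hF hli hst hr hP hJP hN hdm hne
    (c' - 2 * r + 2)
    (fun z hz hz0 => (jets_two hI h0 F hF hli hP hJP hst' hN hdm h3c hnd hz hz0).2)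
    (by omega)
  exact ⟨G, e, he, by omega, hGh, hG, hGli⟩

open H15.Hart in
/-- The theorem at a very general point. -/
theorem swept_point {σ : Type*} [Fintype σ] [DecidableEq σ] {I : Ideal (MvPolynomial σ ℂ)} {r : ℕ}
    (hI : Smooth I r) (F : Fin r → MvPolynomial σ ℂ) (hF : ∀ i, F i ∈ I)
    {y : σ → ℂ} (hy : y ∈ cone I) (hy0 : y ≠ 0)
    (hyli : LinearIndependent ℂ (fun i => dif (F i) y))
    (hyst : ∀ z : σ → ℂ, (∀ s t : ℂ, s • y + t • z ∈ cone I) → StarAt I y z) (hr : 1 ≤ r)
    (hnd : ∀ b : σ → ℂ, (∀ x ∈ cone I, b ⬝ᵥ x = 0) → b = 0)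
    {Q : Ideal (MvPolynomial σ ℂ)} (hQ : Q.IsPrime)
    (hlines : ∀ w ∈ cone Q, ∀ t : ℂ, y + t • w ∈ cone I) {c : ℕ}
    (hdim : Fintype.card σ ≤ dm Q + c) (h2r : 2 * r ≤ c)
    (hn : 2 * c + r * (c - 2 * r + 2) + 1 < Fintype.card σ) :
    ∃ (G : Fin r → MvPolynomial σ ℂ) (e : Fin r → ℕ), (∀ i, 1 ≤ e i) ∧
      ∑ i, e i ≤ c ∧ (∀ i, (G i).IsHomogeneous (e i)) ∧ I = Ideal.span (Set.range G) ∧
      ∀ x ∈ cone I, x ≠ 0 → LinearIndependent ℂ (fun i => dif (G i) x) := by
  classical
  -- coordinates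
  obtain ⟨m, hm⟩ : ∃ m, Fintype.card σ = m + 1 := ⟨Fintype.card σ - 1, by omega⟩
  obtain ⟨e, he⟩ : ∃ e : (Option (Fin m) → ℂ) ≃ₗ[ℂ] (σ → ℂ), e (pt 1 0) = y := by
    have h1 : Module.finrank ℂ (Option (Fin m) → ℂ) = Module.finrank ℂ (σ → ℂ) := by
      rw [Module.finrank_fintype_fun_eq_card, Module.finrank_fintype_fun_eq_card, hm]
      simp
    let e₀ : (Option (Fin m) → ℂ) ≃ₗ[ℂ] (σ → ℂ) := LinearEquiv.ofFinrankEq _ _ h1
    have h2 : e₀ (pt 1 0) ≠ 0 := by
      intro h
      exact pt_ne_zero_left one_ne_zero 0 ((LinearEquiv.map_eq_zero_iff e₀).1 h)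
    obtain ⟨g, hg⟩ := SeparatingDual.exists_continuousLinearEquiv_apply_eq (R := ℂ) h2 hy0
    exact ⟨e₀.trans g.toLinearEquiv, hg⟩
  let L : (Option (Fin m) → ℂ) →ₗ[ℂ] (σ → ℂ) := e
  let M : (σ → ℂ) →ₗ[ℂ] (Option (Fin m) → ℂ) := e.symm
  have hInv : Inv L M I :=
    { ML := fun z => e.symm_apply_apply z
      LM := fun x _ => e.apply_symm_apply x }
  have hInvQ : Inv L M Q :=
    { ML := fun z => e.symm_apply_apply z
      LM := fun x _ => e.apply_symm_apply x }
  have hker : LinearMap.ker (tr L) = ⊥ := by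
    have h1 := finrank_ker_tr hInv
    rw [hm, Fintype.card_option, Fintype.card_fin] at h1
    exact Submodule.finrank_eq_zero.1 (by omega)
  have hsm : Smooth (pull M I) r :=
    { prime := pull_isPrime hInv hI.prime
      homog := fun g hg d => by
        change sub M _ ∈ I
        rw [← homogeneousComponent_sub]
        exact hI.homog _ hg d
      rank := fun z hz hz0 => by
        have h1 := finrank_N_pull hInv hI.prime z
        rw [hI.rank _ ((cone_pull hInv hI.prime).1 hz) (L_ne_zero hInv hI.prime hz0), hker,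
          finrank_bot] at h1
        omega }
  have h0 : pt 1 0 ∈ cone (pull M I) := (cone_pull hInv hI.prime).2 (by
    change e (pt 1 0) ∈ cone I
    rw [he]; exact hy)
  have hsubL : ∀ f ∈ I, sub L f ∈ pull M I := fun f hf => (sub_mem_pull hInv hI.prime).2 hf
  have htrM : ∀ φ, tr L (tr M φ) = φ := by
    intro φ
    funext k
    rw [tr_apply, tr_dot]
    have : M (L (Pi.single k 1)) = Pi.single k 1 := e.symm_apply_apply _
    rw [this]
    simp
  have hQ' : (pull M Q).IsPrime := pull_isPrime hInvQ hQ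
  have hdmQ : dm (pull M Q) = dm Q := by
    have h1 := ringKrullDim_pull hInvQ hQ
    rw [dm_eq hQ', dm_eq hQ] at h1
    exact_mod_cast h1
  obtain ⟨G, a, ha, hsum, hGh, hG, hGli⟩ := swept_adapted hsm h0 (fun i => sub L (F i))
    (fun i => hsubL _ (hF i)) (by
      have h1 : (fun i => dif (sub L (F i)) (pt 1 0)) = fun i => tr L (dif (F i) y) := by
        funext i
        rw [H15.Hart.dif_sub]
        change tr L (dif (F i) (e (pt 1 0))) = _
        rw [he]
      rw [h1]
      exact hyli.map' (tr L) hker)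
    (by
      intro z hz hz0
      refine starT_of_starAt hsm h0 hz ?_
      -- transport of `StarAt`
      have hline : ∀ s t : ℂ, s • y + t • e (pt 0 z) ∈ cone I := by
        intro s t
        have h1 := (mem_cone_J hsm h0).1 hz s t
        have h2 := (cone_pull hInv hI.prime).1 h1
        rw [← smul_add_pt, map_add, map_smul, map_smul] at h2
        change s • e (pt 1 0) + t • e (pt 0 z) ∈ cone I at h2
        rwa [he] at h2
      intro v hv
      obtain ⟨w, hw⟩ := hyst _ hline (e v) (by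
        intro φ hφ
        have h1 : tr L φ ∈ N (pull M I) (pt 1 0) := by
          rw [N_pull hInv hI.prime]
          refine Submodule.mem_map_of_mem ?_
          change φ ∈ N I (e (pt 1 0))
          rwa [he]
        have h2 := hv _ h1
        rwa [tr_dot] at h2)
      refine ⟨e.symm w, ?_⟩
      intro G hG s t
      have hGs : sub M G ∈ I := hG
      have h3 := hw _ hGs s t
      rw [H15.Hart.dif_sub] at h3
      rw [tr_dot] at h3
      simp only [map_add, map_smul] at h3
      have e1 : M y = pt 1 0 := by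
        change e.symm y = _
        rw [← he, e.symm_apply_apply]
      have e2 : M (e (pt 0 z)) = pt 0 z := e.symm_apply_apply _
      have e3 : M (e v) = v := e.symm_apply_apply _
      rw [e1, e2, e3] at h3
      exact h3)
    hr
    (by
      intro b hb
      have h1 : tr M b = 0 := by
        apply hnd
        intro x hx
        rw [tr_dot]
        apply hb
        rw [cone_pull hInv hI.prime]
        change e (e.symm x) ∈ cone I
        rwa [e.apply_symm_apply]
      rw [← htrM b, h1, map_zero])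
    hQ'
    (by
      intro w hw t
      rw [cone_pull hInv hI.prime]
      have h1 := hlines _ ((cone_pull hInvQ hQ).1 hw) t
      have h2 : L (pt 1 0 + t • w) = y + t • L w := by
        rw [map_add, map_smul]
        change e (pt 1 0) + _ = _
        rw [he]
      rw [h2]
      exact h1)
    (c := c) (by rw [hdmQ, Fintype.card_fin]; omega) h2r (by rw [Fintype.card_fin]; omega)
  refine ⟨fun i => sub M (G i), a, ha, hsum, fun i => sub_homog M (hGh i), ?_, ?_⟩
  · apply le_antisymm
    · intro f hf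
      have h1 := hsubL f hf
      rw [hG] at h1
      obtain ⟨c, hc⟩ := Ideal.mem_span_range_iff_exists_fun.1 h1
      have h2 : f = sub M (sub L f) := by
        rw [sub_comp]
        have : L ∘ₗ M = LinearMap.id := LinearMap.ext fun x => e.apply_symm_apply x
        rw [this, sub_id]
      rw [h2, ← hc, map_sum]
      refine Ideal.sum_mem _ fun i _ => ?_
      rw [map_mul]
      exact Ideal.mul_mem_left _ _ (Ideal.subset_span ⟨i, rfl⟩)
    · rw [Ideal.span_le]
      rintro _ ⟨i, rfl⟩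
      have h1 : G i ∈ pull M I := by
        rw [hG]; exact Ideal.subset_span ⟨i, rfl⟩
      exact h1
  · intro x hx hx0
    have hx' : e.symm x ∈ cone (pull M I) := (cone_pull hInv hI.prime).2 (by
      change e (e.symm x) ∈ cone I
      rwa [e.apply_symm_apply])
    have hx'0 : e.symm x ≠ 0 := fun h => hx0 ((LinearEquiv.map_eq_zero_iff e.symm).1 h)
    have h1 := hGli _ hx' hx'0
    have h2 : (fun i => dif (sub M (G i)) x) = fun i => tr M (dif (G i) (e.symm x)) := by
      funext i
      rw [H15.Hart.dif_sub]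
      rfl
    rw [h2]
    refine h1.map' (tr M) ?_
    rw [LinearMap.ker_eq_bot']
    intro φ hφ
    rw [← htrM φ, hφ, map_zero]

end H26.Deg
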