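import Pool.Agent.H26.Deg.Free
import Pool.Agent.H26.Deg.Swept
import Pool.Agent.H94.Deg.FnOne

/-!
# Second fundamental form along the lines through a very general point

If `X` is not contained in a hyperplane then the Taylor coefficients of order one and two are
independent at every line through the base point (Zak's theorem on tangencies).
-/

open MvPolynomial

set_option linter.unusedSectionVars false
set_option linter.unusedVariables false

namespace H26.Deg

open H89.Hart H94.Cubic H94.Deg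

variable {ι : Type*} [Fintype ι] [DecidableEq ι]

theorem dif_sum_smul {σ : Type*} [Fintype σ] [DecidableEq σ] {r : ℕ} (c : Fin r → ℂ)
    (f : Fin r → MvPolynomial σ ℂ) (z : σ → ℂ) :
    dif (∑ i, c i • f i) z = ∑ i, c i • dif (f i) z := by
  rw [dif_sum]
  exact Finset.sum_congr rfl fun i _ => dif_smul _ _ _

theorem li_two {I : Ideal (MvPolynomial (Option ι) ℂ)} {r : ℕ} (hI : Smooth I r)
    (h0 : pt 1 0 ∈ cone I) (F : Fin r → MvPolynomial (Option ι) ℂ)
    (hF : ∀ i, F i ∈ I) (hli : LinearIndependent ℂ (fun i => dif (F i) (pt 1 0)))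
    {P : Ideal (MvPolynomial ι ℂ)} {c : ℕ} (hP : Smooth P c) (hJP : J I ≤ P)
    (hst : ∀ z ∈ cone P, z ≠ 0 → StarT I z)
    (hdm : dm P + c = Fintype.card ι) (hn : 2 * c + r ≤ Fintype.card ι)
    (hnd : ∀ b : Option ι → ℂ, (∀ y ∈ cone I, b ⬝ᵥ y = 0) → b = 0)
    {z₁ : ι → ℂ} (hz₁ : z₁ ∈ cone P) (hz₁0 : z₁ ≠ 0) (μ ν : Fin r → ℂ)
    (hrel : ∑ i, μ i • dif (tc 1 (F i)) z₁ + ∑ i, ν i • dif (tc 2 (F i)) z₁ = 0) :
    μ = 0 ∧ ν = 0 := by
  have hli1 := JetsB.li_tc_one hI h0 F hF hli z₁
  rw [Fintype.linearIndependent_iff] at hli1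
  by_cases hν : ν = 0
  · refine ⟨?_, hν⟩
    subst hν
    simp only [Pi.zero_apply, zero_smul, Finset.sum_const_zero, add_zero] at hrel
    exact funext (hli1 μ hrel)
  exfalso
  -- the quadratic form
  obtain ⟨L, hL, hL1⟩ := exists_form hz₁0 1 1
  set A : MvPolynomial ι ℂ := ∑ i, μ i • tc 1 (F i) with hA
  set B : MvPolynomial ι ℂ := ∑ i, ν i • tc 2 (F i) with hB
  have hev : ∀ z ∈ cone P, eval z A = 0 := by
    intro z hz
    have : A ∈ J I := Submodule.sum_mem _ fun i _ =>
      Submodule.smul_of_tower_mem _ _ (tc_mem_J (hF i) 1)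
    exact hz _ (hJP this)
  have hdg : ∀ z ∈ cone P, dif (B + L * A) z =
      ∑ i, ν i • dif (tc 2 (F i)) z + eval z L • ∑ i, μ i • dif (tc 1 (F i)) z := by
    intro z hz
    rw [dif_add, dif_mul, hev z hz, zero_smul, hB, hA, dif_sum_smul, dif_sum_smul]
    simp
  have hAh : A.IsHomogeneous 1 := by
    refine IsHomogeneous.sum _ _ _ fun i _ => ?_
    have := (isHomogeneous_C ι (μ i)).mul (tc_homog 1 (F i))
    rwa [zero_add, ← smul_eq_C_mul] at this
  have hBh : B.IsHomogeneous 2 := by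
    refine IsHomogeneous.sum _ _ _ fun i _ => ?_
    have := (isHomogeneous_C ι (ν i)).mul (tc_homog 2 (F i))
    rwa [zero_add, ← smul_eq_C_mul] at this
  have hgh : (B + L * A).IsHomogeneous 2 := hBh.add (hL.mul hAh)
  have hgP : B + L * A ∈ P := by
    refine Ideal.add_mem _ ?_ (Ideal.mul_mem_left _ _ ?_)
    · exact Submodule.sum_mem _ fun i _ =>
        Submodule.smul_of_tower_mem _ _ (hJP (tc_mem_J (hF i) 2))
    · exact Submodule.sum_mem _ fun i _ =>
        Submodule.smul_of_tower_mem _ _ (hJP (tc_mem_J (hF i) 1))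
  have hHP : HP P := ⟨hP.prime, hP.homog⟩
  have hspan : ∀ z, Submodule.span ℂ (Set.range fun a : P => dif (a : MvPolynomial ι ℂ) z) =
      N P z := by
    intro z
    apply le_antisymm
    · rw [Submodule.span_le]
      rintro _ ⟨a, rfl⟩
      exact mem_N.2 ⟨a, a.2, rfl⟩
    · intro φ hφ
      obtain ⟨f, hf, rfl⟩ := mem_N.1 hφ
      exact Submodule.subset_span ⟨⟨f, hf⟩, rfl⟩
  obtain ⟨Q, hQ, hPQ, hdQ, hgQ⟩ := exists_zero_cone hHP (γ := P)
    (fun a => (a : MvPolynomial ι ℂ)) c
    (fun z hz hz0 => by rw [hspan]; exact hP.rank z hz hz0) hgh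
    (fun z hz => by rw [hspan]; exact mem_N.2 ⟨_, hgP, rfl⟩) hz₁ hz₁0
    (by rw [hdg z₁ hz₁, hL1, one_smul, add_comm]; exact hrel)
  -- the vector `b` is conormal along the cylinder over `V(Q)`
  set b : ι → ℂ := ∑ i, ν i • dif (tc 1 (F i)) z₁ with hb
  have hbz : ∀ z, b = ∑ i, ν i • dif (tc 1 (F i)) z := by
    intro z
    rw [hb]
    exact Finset.sum_congr rfl fun i _ => by
      rw [dif_const_of_deg_one (tc_homog 1 (F i)) z₁ z]
  have hcyl : HP (cyl Q) := cyl_HP hQ.prime hQ.homog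
  have hIQ : I ≤ cyl Q := (le_cyl hI).trans (cyl_mono (hJP.trans hPQ))
  have hcon : ∀ x ∈ cone (cyl Q), x ≠ 0 → (pt 0 b : Option ι → ℂ) ∈ N I x := by
    intro x hx hx0
    obtain ⟨s, z, rfl⟩ : ∃ s z, x = pt s z := ⟨_, _, (pt_eta x).symm⟩
    rw [pt_mem_cone_cyl] at hx
    have hzP : z ∈ cone P := cone_anti hPQ hx
    have hzJ : z ∈ cone (J I) := cone_anti hJP hzP
    by_cases hz0 : z = 0
    · subst hz0
      have hs : s ≠ 0 := by
        rintro rfl
        apply hx0
        funext o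
        cases o <;> rfl
      have h1 : (pt s 0 : Option ι → ℂ) = s • pt 1 0 := by
        funext o
        cases o <;> simp [pt]
      rw [h1]
      refine N_smul hI hs (mem_N.2 ⟨∑ i, ν i • F i, ?_, ?_⟩)
      · exact Submodule.sum_mem _ fun i _ => Submodule.smul_of_tower_mem _ _ (hF i)
      · rw [dif_sum_smul, hbz z₁]
        have : ∀ i, dif (F i) (pt 1 0) = pt 0 (dif (tc 1 (F i)) z₁) := fun i =>
          dif_base hI h0 (hF i) z₁
        simp only [this]
        funext o
        cases o with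
        | none => simp [pt]
        | some i => simp [pt, Finset.sum_apply]
    · rw [← mem_NS hI hzJ]
      apply mem_NS_of_K1 hI h0 hzJ hz0 (hst z hzP hz0) s
      intro v w hvw
      have hv1 : ∀ i, dif (tc 1 (F i)) z ⬝ᵥ v = 0 := by
        intro i
        have := mem_K1.1 hvw _ (hF i) 0
        rwa [dif_tc_zero, zero_dotProduct, add_zero] at this
      have hw1 : ∀ i, dif (tc 1 (F i)) z ⬝ᵥ w = - (dif (tc 2 (F i)) z ⬝ᵥ v) := by
        intro i
        have := mem_K1.1 hvw _ (hF i) 1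
        linear_combination this
      have h2 := hgQ z hx
      rw [hdg z hzP] at h2
      have h3 := congrArg (fun u => u ⬝ᵥ v) h2
      simp only [add_dotProduct, sum_dotProduct, smul_dotProduct, hv1, zero_dotProduct,
        smul_eq_mul, mul_zero, Finset.sum_const_zero, add_zero] at h3
      rw [hbz z, dotProduct_add, dotProduct_smul, sum_dotProduct, sum_dotProduct]
      simp only [smul_dotProduct, hv1, hw1, smul_eq_mul, mul_zero, Finset.sum_const_zero,
        zero_add, mul_neg, Finset.sum_neg_distrib, h3, neg_zero]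
  have hfin : ∀ y ∈ cone I, (pt 0 b : Option ι → ℂ) ⬝ᵥ y = 0 := fun y hy =>
    zstar hI hcyl hIQ (by rw [dm_cyl hQ]; omega) hcon hy
  have hb0 := hnd _ hfin
  have hb1 : b = 0 := by
    funext i
    have := congrFun hb0 (some i)
    exact this
  exact hν (funext (hli1 ν hb1))

end H26.Deg
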